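import Pool.Agent.Q128.TK.Block

namespace Pool.Agent.Results.MP_c0f49b_an.TakagiCurve

open Set Filter Topology
open scoped ZeroAtInfty
open Pool.Agent.Q128.TK

/-- The unweighted backward shift on `c₀ = C₀(ℕ, 𝕜)`: `(B f) k = f (k + 1)`. -/
noncomputable def shift (𝕜 : Type*) [RCLike 𝕜] : C₀(ℕ, 𝕜) →L[𝕜] C₀(ℕ, 𝕜) :=
  LinearMap.mkContinuous
    { toFun := fun f => ⟨⟨fun k => f (k + 1), continuous_of_discreteTopology⟩, by
        have h := f.zero_at_infty'
        rw [cocompact_eq_cofinite, Nat.cofinite_eq_atTop] at h ⊢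
        exact h.comp (tendsto_add_atTop_nat 1)⟩
      map_add' := fun _ _ => rfl
      map_smul' := fun _ _ => rfl } 1 (by
        intro f
        rw [one_mul, ← ZeroAtInftyContinuousMap.norm_toBCF_eq_norm,
          BoundedContinuousFunction.norm_le (norm_nonneg _)]
        intro k
        rw [← ZeroAtInftyContinuousMap.norm_toBCF_eq_norm]
        exact (ZeroAtInftyContinuousMap.toBCF f).norm_coe_le_norm (k + 1))

/-- The operator `e^x B × e^y B` on `c₀ × c₀`. -/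
noncomputable def roll (𝕜 : Type*) [RCLike 𝕜] (x y : ℝ) :
    (C₀(ℕ, 𝕜) × C₀(ℕ, 𝕜)) →L[𝕜] (C₀(ℕ, 𝕜) × C₀(ℕ, 𝕜)) :=
  (((Real.exp x : ℝ) : 𝕜) • shift 𝕜).prodMap (((Real.exp y : ℝ) : 𝕜) • shift 𝕜)

/-- The set of hypercyclic vectors of `e^x B × e^y B`. -/
def HC (𝕜 : Type*) [RCLike 𝕜] (x y : ℝ) : Set (C₀(ℕ, 𝕜) × C₀(ℕ, 𝕜)) :=
  {v | Dense (Set.range fun n : ℕ => ((roll 𝕜 x y) ^ n) v)}

/-- The Takagi function `∑ 2^(-n) dist (2^n t, ℤ)`. -/
noncomputable def takagi (t : ℝ) : ℝ :=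
  ∑' n : ℕ, (1 / 2 : ℝ) ^ n * Metric.infDist ((2 : ℝ) ^ n * t) (Set.range ((↑) : ℤ → ℝ))

section
variable {𝕜 : Type*} [RCLike 𝕜]

theorem shift_apply (f : C₀(ℕ, 𝕜)) (k : ℕ) : shift 𝕜 f k = f (k + 1) := rfl

theorem shift_pow_apply (f : C₀(ℕ, 𝕜)) (n k : ℕ) : ((shift 𝕜) ^ n) f k = f (k + n) := by
  induction n generalizing f k with
  | zero => rfl
  | succ n ih =>
    rw [pow_succ]
    change ((shift 𝕜) ^ n) (shift 𝕜 f) k = _
    rw [ih, shift_apply]
    rfl

theorem roll_pow (x y : ℝ) (n : ℕ) (p : C₀(ℕ, 𝕜) × C₀(ℕ, 𝕜)) :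
    ((roll 𝕜 x y) ^ n) p = (((Real.exp (n * x) : ℝ) : 𝕜) • ((shift 𝕜) ^ n) p.1,
      ((Real.exp (n * y) : ℝ) : 𝕜) • ((shift 𝕜) ^ n) p.2) := by
  induction n generalizing p with
  | zero => simp
  | succ n ih =>
    rw [pow_succ]
    change ((roll 𝕜 x y) ^ n) (roll 𝕜 x y p) = _
    rw [ih]
    have h1 : (roll 𝕜 x y p).1 = ((Real.exp x : ℝ) : 𝕜) • shift 𝕜 p.1 := rfl
    have h2 : (roll 𝕜 x y p).2 = ((Real.exp y : ℝ) : 𝕜) • shift 𝕜 p.2 := rfl
    rw [h1, h2, map_smul, map_smul, smul_smul, smul_smul, ← RCLike.ofReal_mul, ← RCLike.ofReal_mul,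
      ← Real.exp_add, ← Real.exp_add, pow_succ]
    have h3 : (n : ℝ) * x + x = ((n + 1 : ℕ) : ℝ) * x := by push_cast; ring
    have h4 : (n : ℝ) * y + y = ((n + 1 : ℕ) : ℝ) * y := by push_cast; ring
    rw [h3, h4]
    rfl

theorem dist_le_of (f g : C₀(ℕ, 𝕜)) {ε : ℝ} (hε : 0 ≤ ε) (h : ∀ k, ‖f k - g k‖ ≤ ε) : dist f g ≤ ε := by
  rw [← ZeroAtInftyContinuousMap.dist_toBCF_eq_dist, BoundedContinuousFunction.dist_le hε]
  intro k
  rw [dist_eq_norm]
  exact h k

/-- finitely supported vectors -/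
noncomputable def mkFin (u : ℕ → 𝕜) (h : ∃ S, ∀ k, S ≤ k → u k = 0) : C₀(ℕ, 𝕜) :=
  ⟨⟨u, continuous_of_discreteTopology⟩, by
    rw [cocompact_eq_cofinite, Nat.cofinite_eq_atTop]
    obtain ⟨S, hS⟩ := h
    exact tendsto_atTop_of_eventually_const (i₀ := S) hS⟩

theorem mkFin_apply (u : ℕ → 𝕜) (h : ∃ S, ∀ k, S ≤ k → u k = 0) (k : ℕ) : mkFin u h k = u k := rfl

theorem exists_trunc (f : C₀(ℕ, 𝕜)) {ε : ℝ} (hε : 0 < ε) :
    ∃ S : ℕ, ∀ k, S ≤ k → ‖f k‖ ≤ ε := by
  have h := f.zero_at_infty'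
  rw [cocompact_eq_cofinite, Nat.cofinite_eq_atTop, Metric.tendsto_atTop] at h
  obtain ⟨S, hS⟩ := h ε hε
  refine ⟨S, fun k hk => ?_⟩
  have := hS k hk
  rw [dist_zero_right] at this
  exact this.le

/-- the countable family of targets -/
noncomputable def tgt (l : List ℕ) (k : ℕ) : 𝕜 :=
  if h : k < l.length then TopologicalSpace.denseSeq 𝕜 l[k] else 0

theorem tgt_zero (l : List ℕ) (k : ℕ) (hk : l.length ≤ k) : (tgt l k : 𝕜) = 0 := by
  unfold tgt
  rw [dif_neg (by omega)]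

noncomputable def Tgt (l : List ℕ) : C₀(ℕ, 𝕜) := mkFin (tgt l) ⟨l.length, tgt_zero l⟩

theorem exists_tgt (f : C₀(ℕ, 𝕜)) {ε : ℝ} (hε : 0 < ε) : ∃ l : List ℕ, dist (Tgt l) f ≤ ε := by
  obtain ⟨S, hS⟩ := exists_trunc f hε
  have hd : ∀ x : 𝕜, ∃ i : ℕ, dist (TopologicalSpace.denseSeq 𝕜 i) x < ε := by
    intro x
    obtain ⟨i, hi⟩ := (TopologicalSpace.denseRange_denseSeq 𝕜).exists_dist_lt x hε
    exact ⟨i, by rw [dist_comm]; exact hi⟩
  choose c hc using hd
  refine ⟨(List.range S).map (fun k => c (f k)), dist_le_of _ _ hε.le ?_⟩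
  intro k
  change ‖tgt _ k - f k‖ ≤ ε
  unfold tgt
  split_ifs with h
  · simp only [List.getElem_map, List.getElem_range]
    rw [← dist_eq_norm]
    exact (hc _).le
  · rw [zero_sub, norm_neg]
    apply hS
    simpa using h

end

/-- the modulus gives continuity -/
theorem modu_continuous {C : ℝ} (hC : 0 ≤ C) {ξ : ℝ → ℝ} (h : Modu C ξ) : Continuous ξ := by
  rw [Metric.continuous_iff]
  intro t ε hε
  obtain ⟨N, hN⟩ : ∃ N : ℕ, (1 / 2 : ℝ) ^ N < ε / (2 * (C + 1)) :=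
    exists_pow_lt_of_lt_one (by positivity) (by norm_num)
  refine ⟨ε / (2 * (C + 1) * (N + 1)), by positivity, ?_⟩
  intro s hs
  rw [Real.dist_eq] at hs ⊢
  refine lt_of_le_of_lt (h s t N) ?_
  have h1 : (N : ℝ) * |s - t| ≤ ε / (2 * (C + 1)) := by
    calc (N : ℝ) * |s - t| ≤ (N + 1) * (ε / (2 * (C + 1) * (N + 1))) := by
          apply mul_le_mul (by linarith) hs.le (abs_nonneg _) (by positivity)
      _ = ε / (2 * (C + 1)) := by field_simp
  have h2 : (N : ℝ) * |s - t| + (1 / 2) ^ N < ε / (C + 1) := by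
    have : ε / (2 * (C + 1)) + ε / (2 * (C + 1)) = ε / (C + 1) := by field_simp; norm_num
    linarith
  have h3 : 0 ≤ (N : ℝ) * |s - t| + (1 / 2) ^ N := by positivity
  calc C * (N * |s - t| + (1 / 2) ^ N) ≤ (C + 1) * (N * |s - t| + (1 / 2) ^ N) := by
        apply mul_le_mul_of_nonneg_right (by linarith) h3
    _ < (C + 1) * (ε / (C + 1)) := by
        apply mul_lt_mul_of_pos_left h2 (by linarith)
    _ = ε := by field_simp

theorem residual_global (𝕜 : Type*) [RCLike 𝕜] (ξ η : ℝ → ℝ) (C m : ℝ) (hC : 0 ≤ C) (hm : 0 < m)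
    (hξ : ∀ t, m ≤ ξ t) (hη : ∀ t, m ≤ η t) (hξm : Modu C ξ) (hηm : Modu C η) :
    (⋂ t ∈ Icc (0 : ℝ) 1, HC 𝕜 (ξ t) (η t)) ∈ residual (C₀(ℕ, 𝕜) × C₀(ℕ, 𝕜)) := by
  have hξc := modu_continuous hC hξm
  have hηc := modu_continuous hC hηm
  have key : ∀ x : List ℕ × List ℕ × ℕ,
      {p : C₀(ℕ, 𝕜) × C₀(ℕ, 𝕜) | ∀ t ∈ Icc (0 : ℝ) 1, ∃ n : ℕ,
        dist (((roll 𝕜 (ξ t) (η t)) ^ n) p) (Tgt x.1, Tgt x.2.1) < 1 / ((x.2.2 : ℝ) + 1)} ∈
        residual (C₀(ℕ, 𝕜) × C₀(ℕ, 𝕜)) := by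
    rintro ⟨l, l', q⟩
    simp only
    apply residual_of_dense_open
    · rw [isOpen_iff_eventually]
      intro p hp
      apply isCompact_Icc.eventually_forall_of_forall_eventually
      intro t ht
      obtain ⟨n, hn⟩ := hp t ht
      have hcont : Continuous (fun z : (C₀(ℕ, 𝕜) × C₀(ℕ, 𝕜)) × ℝ =>
          dist (((roll 𝕜 (ξ z.2) (η z.2)) ^ n) z.1) ((Tgt l, Tgt l') : C₀(ℕ, 𝕜) × C₀(ℕ, 𝕜))) := by
        apply Continuous.dist _ continuous_const
        simp only [roll_pow]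
        apply Continuous.prodMk
        · apply Continuous.fun_smul
          · apply RCLike.continuous_ofReal.comp
            fun_prop
          · exact ((shift 𝕜) ^ n).continuous.comp (continuous_fst.comp continuous_fst)
        · apply Continuous.fun_smul
          · apply RCLike.continuous_ofReal.comp
            fun_prop
          · exact ((shift 𝕜) ^ n).continuous.comp (continuous_snd.comp continuous_fst)
      have h1 := (hcont.tendsto (p, t)).eventually (eventually_lt_nhds hn)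
      filter_upwards [h1] with z hz
      exact ⟨n, hz⟩
    · rw [Metric.dense_iff]
      intro p r hr
      obtain ⟨S1, hS1⟩ := exists_trunc p.1 (show 0 < r / 4 by positivity)
      obtain ⟨S2, hS2⟩ := exists_trunc p.2 (show 0 < r / 4 by positivity)
      set S := S1 + S2 + l.length + l'.length with hS
      set ε : ℝ := min (r / 4) (1 / (2 * ((q : ℝ) + 1))) with hε
      have hεpos : 0 < ε := by positivity
      obtain ⟨u, v, S', hu, hv, huc, hvc, hmain⟩ := one_target (𝕜 := 𝕜) ξ η C m hC hm hξ hη hξm hηm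
        (fun k => if k < S then p.1 k else 0) (fun k => if k < S then p.2 k else 0)
        (tgt l) (tgt l') S (fun k hk => if_neg (by omega)) (fun k hk => if_neg (by omega))
        (fun k hk => tgt_zero l k (by omega)) (fun k hk => tgt_zero l' k (by omega)) ε hεpos
      refine ⟨(mkFin u ⟨S', hu⟩, mkFin v ⟨S', hv⟩), ?_, ?_⟩
      · rw [Metric.mem_ball, Prod.dist_eq, max_lt_iff]
        have e1 : ε ≤ r / 4 := min_le_left _ _
        constructor
        · refine lt_of_le_of_lt (dist_le_of _ _ (show 0 ≤ r / 2 by positivity) ?_) (by linarith)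
          intro k
          rw [mkFin_apply]
          have h1 := huc k
          by_cases hk : k < S
          · simp only [hk, if_true] at h1
            linarith
          · simp only [hk, if_false, sub_zero] at h1
            have h2 := hS1 k (by omega)
            have h3 := norm_sub_le (u k) (p.1 k)
            linarith
        · refine lt_of_le_of_lt (dist_le_of _ _ (show 0 ≤ r / 2 by positivity) ?_) (by linarith)
          intro k
          rw [mkFin_apply]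
          have h1 := hvc k
          by_cases hk : k < S
          · simp only [hk, if_true] at h1
            linarith
          · simp only [hk, if_false, sub_zero] at h1
            have h2 := hS2 k (by omega)
            have h3 := norm_sub_le (v k) (p.2 k)
            linarith
      · intro t ht
        obtain ⟨n, hn⟩ := hmain t ht
        refine ⟨n, ?_⟩
        have e2 : ε ≤ 1 / (2 * ((q : ℝ) + 1)) := min_le_right _ _
        have e3 : 1 / (2 * ((q : ℝ) + 1)) < 1 / ((q : ℝ) + 1) := by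
          apply one_div_lt_one_div_of_lt (by positivity)
          have : (0 : ℝ) < (q : ℝ) + 1 := by positivity
          linarith
        refine lt_of_le_of_lt ?_ (lt_of_le_of_lt e2 e3)
        rw [roll_pow, Prod.dist_eq, max_le_iff]
        constructor
        · apply dist_le_of _ _ hεpos.le
          intro k
          exact (by
            have := (hn k).1
            rw [ZeroAtInftyContinuousMap.smul_apply, shift_pow_apply, smul_eq_mul]
            exact this)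
        · apply dist_le_of _ _ hεpos.le
          intro k
          exact (by
            have := (hn k).2
            rw [ZeroAtInftyContinuousMap.smul_apply, shift_pow_apply, smul_eq_mul]
            exact this)
  have hall := (countable_iInter_mem (l := residual (C₀(ℕ, 𝕜) × C₀(ℕ, 𝕜)))).mpr key
  refine mem_of_superset hall ?_
  intro p hp
  rw [mem_iInter] at hp
  simp only [mem_iInter]
  intro t ht
  change Dense (Set.range fun n : ℕ => ((roll 𝕜 (ξ t) (η t)) ^ n) p)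
  rw [Metric.dense_iff]
  intro y r hr
  obtain ⟨l, hl⟩ := exists_tgt y.1 (show 0 < r / 4 by positivity)
  obtain ⟨l', hl'⟩ := exists_tgt y.2 (show 0 < r / 4 by positivity)
  obtain ⟨q, hq⟩ := exists_nat_one_div_lt (show 0 < r / 4 by positivity)
  obtain ⟨n, hn⟩ := hp (l, l', q) t ht
  refine ⟨((roll 𝕜 (ξ t) (η t)) ^ n) p, ?_, ⟨n, rfl⟩⟩
  rw [Metric.mem_ball]
  have h1 : dist ((Tgt l, Tgt l') : C₀(ℕ, 𝕜) × C₀(ℕ, 𝕜)) y ≤ r / 4 := by
    rw [Prod.dist_eq]
    exact max_le hl hl'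
  have h2 := dist_triangle (((roll 𝕜 (ξ t) (η t)) ^ n) p)
    ((Tgt l, Tgt l') : C₀(ℕ, 𝕜) × C₀(ℕ, 𝕜)) y
  simp only at hn
  linarith

/-- the modulus of the Takagi function -/
theorem takagi_modu : Modu 1 takagi := by
  intro s t N
  set Z : Set ℝ := Set.range ((↑) : ℤ → ℝ) with hZ
  have hne : Z.Nonempty := ⟨_, ⟨0, rfl⟩⟩
  have g0 : ∀ x : ℝ, 0 ≤ Metric.infDist x Z := fun x => Metric.infDist_nonneg
  have g1 : ∀ x : ℝ, Metric.infDist x Z ≤ 1 / 2 := fun x => by
    have hm : ((round x : ℤ) : ℝ) ∈ Z := ⟨round x, rfl⟩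
    refine (Metric.infDist_le_dist_of_mem (x := x) hm).trans ?_
    rw [Real.dist_eq]
    exact abs_sub_round x
  have g2 : ∀ x y : ℝ, |Metric.infDist x Z - Metric.infDist y Z| ≤ |x - y| := fun x y => by
    have := (Metric.lipschitz_infDist_pt Z).dist_le_mul x y
    rwa [NNReal.coe_one, one_mul, Real.dist_eq, Real.dist_eq] at this
  have hgeo : Summable fun n : ℕ => ((1 : ℝ) / 2) ^ n * (1 / 2) :=
    (summable_geometric_of_lt_one (by norm_num) (by norm_num)).mul_right _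
  have hsum : ∀ x : ℝ, Summable fun n : ℕ => ((1 : ℝ) / 2) ^ n * Metric.infDist ((2 : ℝ) ^ n * x) Z := by
    intro x
    refine Summable.of_nonneg_of_le (fun n => mul_nonneg (by positivity) (g0 _)) (fun n => ?_) hgeo
    exact mul_le_mul_of_nonneg_left (g1 _) (by positivity)
  have hdiff : takagi s - takagi t = ∑' n : ℕ, (((1 : ℝ) / 2) ^ n * Metric.infDist ((2 : ℝ) ^ n * s) Z -
      ((1 : ℝ) / 2) ^ n * Metric.infDist ((2 : ℝ) ^ n * t) Z) := by
    rw [(hsum s).tsum_sub (hsum t)]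
    rfl
  set f : ℕ → ℝ := fun n => ((1 : ℝ) / 2) ^ n * Metric.infDist ((2 : ℝ) ^ n * s) Z -
      ((1 : ℝ) / 2) ^ n * Metric.infDist ((2 : ℝ) ^ n * t) Z with hf
  have hfs : Summable f := (hsum s).sub (hsum t)
  have hf1 : ∀ n, |f n| ≤ |s - t| := by
    intro n
    rw [hf]
    simp only
    rw [← mul_sub, abs_mul, abs_of_nonneg (by positivity)]
    have h1 := g2 ((2 : ℝ) ^ n * s) ((2 : ℝ) ^ n * t)
    rw [← mul_sub, abs_mul, abs_of_nonneg (show (0 : ℝ) ≤ 2 ^ n by positivity)] at h1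
    calc ((1 : ℝ) / 2) ^ n * |Metric.infDist ((2 : ℝ) ^ n * s) Z - Metric.infDist ((2 : ℝ) ^ n * t) Z|
        ≤ (1 / 2) ^ n * (2 ^ n * |s - t|) := mul_le_mul_of_nonneg_left h1 (by positivity)
      _ = |s - t| := by
          rw [← mul_assoc, ← mul_pow]; norm_num
  have hf2 : ∀ n, |f n| ≤ (1 / 2) ^ n * (1 / 2) := by
    intro n
    rw [hf]
    simp only
    rw [← mul_sub, abs_mul, abs_of_nonneg (by positivity)]
    apply mul_le_mul_of_nonneg_left _ (by positivity)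
    rw [abs_le]
    constructor
    · linarith [g0 ((2 : ℝ) ^ n * s), g1 ((2 : ℝ) ^ n * t)]
    · linarith [g1 ((2 : ℝ) ^ n * s), g0 ((2 : ℝ) ^ n * t)]
  rw [hdiff, ← hfs.sum_add_tsum_nat_add N, one_mul]
  refine (abs_add_le _ _).trans (add_le_add ?_ ?_)
  · calc |∑ i ∈ Finset.range N, f i| ≤ ∑ i ∈ Finset.range N, |f i| := Finset.abs_sum_le_sum_abs _ _
      _ ≤ ∑ i ∈ Finset.range N, |s - t| := Finset.sum_le_sum fun i _ => hf1 i
      _ = N * |s - t| := by simp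
  · have h1 : HasSum (fun n : ℕ => ((1 : ℝ) / 2) ^ (n + N) * (1 / 2)) ((1 / 2) ^ N) := by
      have h2 := (hasSum_geometric_of_lt_one (r := (1 : ℝ) / 2) (by norm_num) (by norm_num)).mul_right
        (((1 : ℝ) / 2) ^ N * (1 / 2))
      have e1 : (fun n : ℕ => ((1 : ℝ) / 2) ^ (n + N) * (1 / 2)) =
          fun i : ℕ => ((1 : ℝ) / 2) ^ i * ((1 / 2) ^ N * (1 / 2)) := by
        funext n; rw [pow_add]; ring
      have e2 : ((1 : ℝ) - 1 / 2)⁻¹ * ((1 / 2) ^ N * (1 / 2)) = (1 / 2) ^ N := by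
        have : ((1 : ℝ) - 1 / 2)⁻¹ = 2 := by norm_num
        rw [this]; ring
      rw [e2] at h2
      rw [e1]
      exact h2
    have h3 := tsum_of_norm_bounded h1 (f := fun n => f (n + N)) (fun n => by
      rw [Real.norm_eq_abs]; exact hf2 (n + N))
    rwa [Real.norm_eq_abs] at h3

/-- from the modulus `h log (1/h)` on `[0,1]` to the discrete form on the line -/
theorem modu_of_log {ξ : ℝ → ℝ} {C : ℝ} (h : ∀ s ∈ Icc (0 : ℝ) 1, ∀ t ∈ Icc (0 : ℝ) 1, s ≠ t →
    |ξ s - ξ t| ≤ C * (|s - t| * (1 + Real.log (1 / |s - t|)))) :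
    Modu |C| (fun t => ξ (projIcc (0 : ℝ) 1 zero_le_one t)) := by
  intro s t N
  simp only
  set a : ℝ := (projIcc (0 : ℝ) 1 zero_le_one s : ℝ) with ha
  set b : ℝ := (projIcc (0 : ℝ) 1 zero_le_one t : ℝ) with hb
  have hab : |a - b| ≤ |s - t| := abs_projIcc_sub_projIcc _
  have ha1 : a ∈ Icc (0 : ℝ) 1 := (projIcc (0 : ℝ) 1 zero_le_one s).2
  have hb1 : b ∈ Icc (0 : ℝ) 1 := (projIcc (0 : ℝ) 1 zero_le_one t).2
  by_cases hne : a = b
  · rw [hne, sub_self, abs_zero]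
    positivity
  · have hpos : 0 < |a - b| := abs_pos.mpr (sub_ne_zero.mpr hne)
    have hle1 : |a - b| ≤ 1 := by
      rw [abs_le]
      constructor
      · linarith [ha1.1, hb1.2]
      · linarith [ha1.2, hb1.1]
    set d := |a - b| with hd
    have hlog : 0 ≤ Real.log (1 / d) := by
      apply Real.log_nonneg
      rw [le_div_iff₀ hpos]; linarith
    have h1 := h a ha1 b hb1 hne
    have h2 : C * (d * (1 + Real.log (1 / d))) ≤ |C| * (d * (1 + Real.log (1 / d))) :=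
      mul_le_mul_of_nonneg_right (le_abs_self C) (by positivity)
    refine (h1.trans h2).trans (mul_le_mul_of_nonneg_left ?_ (abs_nonneg C))
    have h3 : Real.log (1 / d) = N * Real.log 2 + Real.log ((1 / 2) ^ N / d) := by
      rw [← Real.log_pow, ← Real.log_mul (by positivity) (by positivity)]
      congr 1
      rw [one_div_pow]
      field_simp
    have h4 := Real.log_le_sub_one_of_pos (x := (1 / 2 : ℝ) ^ N / d) (by positivity)
    have h5 : Real.log 2 ≤ 1 := by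
      have := Real.log_two_lt_d9
      linarith
    calc d * (1 + Real.log (1 / d)) = d * (N * Real.log 2) + d * (1 + Real.log ((1 / 2) ^ N / d)) := by
          rw [h3]; ring
      _ ≤ d * (N * 1) + d * ((1 / 2) ^ N / d) := by
          apply add_le_add
          · apply mul_le_mul_of_nonneg_left _ hpos.le
            apply mul_le_mul_of_nonneg_left h5 (by positivity)
          · apply mul_le_mul_of_nonneg_left _ hpos.le
            linarith
      _ = N * d + (1 / 2) ^ N := by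
          field_simp
      _ ≤ N * |s - t| + (1 / 2) ^ N := by
          have : (N : ℝ) * d ≤ N * |s - t| := mul_le_mul_of_nonneg_left hab (by positivity)
          linarith

/-- The translate `Γ_{a,b}` of the graph of the Takagi function. -/
def Gam (a b : ℝ) : Set (ℝ × ℝ) := {q | ∃ t ∈ Icc (0 : ℝ) 1, q = (a + t, b + takagi t)}

theorem curve (𝕜 : Type) [RCLike 𝕜] (ξ η : ℝ → ℝ) (hpos : ∀ t ∈ Icc (0 : ℝ) 1, 0 < ξ t ∧ 0 < η t)
    (C : ℝ) (h : ∀ s ∈ Icc (0 : ℝ) 1, ∀ t ∈ Icc (0 : ℝ) 1, s ≠ t →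
      |ξ s - ξ t| ≤ C * (|s - t| * (1 + Real.log (1 / |s - t|))) ∧
      |η s - η t| ≤ C * (|s - t| * (1 + Real.log (1 / |s - t|)))) :
    (⋂ t ∈ Icc (0 : ℝ) 1, HC 𝕜 (ξ t) (η t)) ∈ residual (C₀(ℕ, 𝕜) × C₀(ℕ, 𝕜)) := by
  have h1 := modu_of_log (ξ := ξ) (C := C) fun s hs t ht hst => (h s hs t ht hst).1
  have h2 := modu_of_log (ξ := η) (C := C) fun s hs t ht hst => (h s hs t ht hst).2
  set ξ' : ℝ → ℝ := fun t => ξ (projIcc (0 : ℝ) 1 zero_le_one t) with hξ'
  set η' : ℝ → ℝ := fun t => η (projIcc (0 : ℝ) 1 zero_le_one t) with hη'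
  have hC : (0 : ℝ) ≤ |C| := abs_nonneg C
  obtain ⟨t1, ht1, hm1⟩ := isCompact_Icc.exists_isMinOn (s := Icc (0 : ℝ) 1) ⟨0, by simp⟩
    (modu_continuous hC h1).continuousOn
  obtain ⟨t2, ht2, hm2⟩ := isCompact_Icc.exists_isMinOn (s := Icc (0 : ℝ) 1) ⟨0, by simp⟩
    (modu_continuous hC h2).continuousOn
  have e1 : ∀ t ∈ Icc (0 : ℝ) 1, ξ' t = ξ t := fun t ht => by
    rw [hξ']; simp only; rw [projIcc_of_mem zero_le_one ht]
  have e2 : ∀ t ∈ Icc (0 : ℝ) 1, η' t = η t := fun t ht => by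
    rw [hη']; simp only; rw [projIcc_of_mem zero_le_one ht]
  have p1 : 0 < ξ' t1 := by rw [e1 t1 ht1]; exact (hpos t1 ht1).1
  have p2 : 0 < η' t2 := by rw [e2 t2 ht2]; exact (hpos t2 ht2).2
  have l1 : ∀ t, min (ξ' t1) (η' t2) ≤ ξ' t := fun t => by
    refine (min_le_left _ _).trans ?_
    have hmem : ((projIcc (0 : ℝ) 1 zero_le_one t : Icc (0 : ℝ) 1) : ℝ) ∈ Icc (0 : ℝ) 1 :=
      (projIcc (0 : ℝ) 1 zero_le_one t).2
    have := hm1 hmem
    simp only [mem_ofPred_eq] at this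
    rw [e1 _ hmem] at this
    exact this
  have l2 : ∀ t, min (ξ' t1) (η' t2) ≤ η' t := fun t => by
    refine (min_le_right _ _).trans ?_
    have hmem : ((projIcc (0 : ℝ) 1 zero_le_one t : Icc (0 : ℝ) 1) : ℝ) ∈ Icc (0 : ℝ) 1 :=
      (projIcc (0 : ℝ) 1 zero_le_one t).2
    have := hm2 hmem
    simp only [mem_ofPred_eq] at this
    rw [e2 _ hmem] at this
    exact this
  have hres := residual_global 𝕜 ξ' η' |C| (min (ξ' t1) (η' t2)) hC (lt_min p1 p2) l1 l2 h1 h2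
  have heq : (⋂ t ∈ Icc (0 : ℝ) 1, HC 𝕜 (ξ' t) (η' t)) = ⋂ t ∈ Icc (0 : ℝ) 1, HC 𝕜 (ξ t) (η t) := by
    apply iInter₂_congr
    intro t ht
    rw [e1 t ht, e2 t ht]
  rw [heq] at hres
  exact hres

theorem takagi_residual (𝕜 : Type) [RCLike 𝕜] (a b : ℝ) (ha : 0 < a) (hb : 0 < b) :
    (⋂ q ∈ Gam a b, HC 𝕜 q.1 q.2) ∈ residual (C₀(ℕ, 𝕜) × C₀(ℕ, 𝕜)) := by
  have hT0 : ∀ t, 0 ≤ takagi t := fun t => tsum_nonneg fun n => by
    have := Metric.infDist_nonneg (x := (2 : ℝ) ^ n * t) (s := Set.range ((↑) : ℤ → ℝ))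
    positivity
  have hpr : ∀ t : ℝ, 0 ≤ (projIcc (0 : ℝ) 1 zero_le_one t : ℝ) := fun t =>
    (projIcc (0 : ℝ) 1 zero_le_one t).2.1
  have h1 : Modu 1 (fun t : ℝ => a + (projIcc (0 : ℝ) 1 zero_le_one t : ℝ)) := by
    intro s t N
    have hp : |(projIcc (0 : ℝ) 1 zero_le_one s : ℝ) - (projIcc (0 : ℝ) 1 zero_le_one t : ℝ)| ≤ |s - t| :=
      abs_projIcc_sub_projIcc _
    have h3 : |(a + (projIcc (0 : ℝ) 1 zero_le_one s : ℝ)) - (a + (projIcc (0 : ℝ) 1 zero_le_one t : ℝ))|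
        ≤ |s - t| := by
      rw [add_sub_add_left_eq_sub]; exact hp
    have h4 : |(projIcc (0 : ℝ) 1 zero_le_one s : ℝ) - (projIcc (0 : ℝ) 1 zero_le_one t : ℝ)| ≤ 1 := by
      have i1 := (projIcc (0 : ℝ) 1 zero_le_one s).2
      have i2 := (projIcc (0 : ℝ) 1 zero_le_one t).2
      rw [abs_le]
      constructor
      · linarith [i1.1, i2.2]
      · linarith [i1.2, i2.1]
    simp only
    rw [one_mul]
    rcases Nat.eq_zero_or_pos N with hN | hN
    · subst hN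
      rw [add_sub_add_left_eq_sub]
      simpa using h4
    · have : (1 : ℝ) ≤ N := by exact_mod_cast hN
      have h5 : |s - t| ≤ N * |s - t| := by nlinarith [abs_nonneg (s - t)]
      have h6 : (0 : ℝ) ≤ (1 / 2) ^ N := by positivity
      linarith
  have h2 : Modu 1 (fun t : ℝ => b + takagi t) := by
    intro s t N
    simp only
    rw [add_sub_add_left_eq_sub]
    exact takagi_modu s t N
  have hres := residual_global 𝕜 (fun t : ℝ => a + (projIcc (0 : ℝ) 1 zero_le_one t : ℝ))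
    (fun t : ℝ => b + takagi t) 1 (min a b) zero_le_one (lt_min ha hb)
    (fun t => by have := hpr t; have := min_le_left a b; linarith)
    (fun t => by have := hT0 t; have := min_le_right a b; linarith) h1 h2
  refine mem_of_superset hres ?_
  intro p hp
  simp only [mem_iInter] at hp ⊢
  rintro q ⟨t, ht, rfl⟩
  have := hp t ht
  rw [projIcc_of_mem zero_le_one ht] at this
  exact this

/-- **Common hypercyclic vectors along curves with modulus of continuity `h log (1/h)`, and along the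
graph of the Takagi function.** -/
theorem result (𝕜 : Type) [RCLike 𝕜] :
    (∀ a b : ℝ, 0 < a → 0 < b →
      (⋂ q ∈ Gam a b, HC 𝕜 q.1 q.2).Nonempty ∧
      (⋂ q ∈ Gam a b, HC 𝕜 q.1 q.2) ∈ residual (C₀(ℕ, 𝕜) × C₀(ℕ, 𝕜))) ∧
    (∀ ξ η : ℝ → ℝ, (∀ t ∈ Icc (0 : ℝ) 1, 0 < ξ t ∧ 0 < η t) →
      ∀ C : ℝ, (∀ s ∈ Icc (0 : ℝ) 1, ∀ t ∈ Icc (0 : ℝ) 1, s ≠ t →
        |ξ s - ξ t| ≤ C * (|s - t| * (1 + Real.log (1 / |s - t|))) ∧
        |η s - η t| ≤ C * (|s - t| * (1 + Real.log (1 / |s - t|)))) →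
      (⋂ t ∈ Icc (0 : ℝ) 1, HC 𝕜 (ξ t) (η t)).Nonempty ∧
      (⋂ t ∈ Icc (0 : ℝ) 1, HC 𝕜 (ξ t) (η t)) ∈ residual (C₀(ℕ, 𝕜) × C₀(ℕ, 𝕜))) := by
  refine ⟨fun a b ha hb => ?_, fun ξ η hpos C h => ?_⟩
  · have h1 := takagi_residual 𝕜 a b ha hb
    exact ⟨(dense_of_mem_residual h1).nonempty, h1⟩
  · have h1 := curve 𝕜 ξ η hpos C h
    exact ⟨(dense_of_mem_residual h1).nonempty, h1⟩

end Pool.Agent.Results.MP_c0f49b_an.TakagiCurve
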